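import Pool.Agent.Helper45.SD.Goals

set_option autoImplicit false

/-!
# Packet BLK of MP_9415b6_co: block sums
-/

open Finset

namespace Pool.Agent.Helper8.SD

open Pool.Agent.Helper45.SD

theorem ep_sum (M f : ℕ) (hM : 1 ≤ M) :
    ((M : ℤ) - 1) * ∑ i ∈ range f, ep M i = -((f : ℤ) * ep M f) := by
  induction f with
  | zero => simp
  | succ f ih =>
    rw [sum_range_succ, mul_add, ih]
    have h := Nat.choose_succ_right_eq (M - 1) f
    have h2 : ((M - 1).choose (f + 1) : ℤ) * ((f : ℤ) + 1) =
        ((M - 1).choose f : ℤ) * ((M : ℤ) - 1 - f) := by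
      by_cases hf : f ≤ M - 1
      · have h3 : (((M - 1).choose (f + 1) * (f + 1) : ℕ) : ℤ) =
            (((M - 1).choose f * (M - 1 - f) : ℕ) : ℤ) := by rw [h]
        push_cast [Nat.cast_sub hf, Nat.cast_sub hM] at h3
        exact h3
      · rw [Nat.choose_eq_zero_of_lt (by omega : M - 1 < f + 1),
          Nat.choose_eq_zero_of_lt (by omega : M - 1 < f)]
        simp
    unfold ep
    push_cast
    rw [pow_succ]
    linear_combination (-(-1 : ℤ) ^ f) * h2

theorem block (e : ℕ → ℤ) (s r : ℕ) (hr : r < s) (P : ℕ → Prop) [DecidablePred P]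
    (hP : ∀ j, P (j + s) ↔ P j) (f : ℕ) :
    ∑ j ∈ Icc 1 (s * f + r), (if P j then e ((s * f + r - j) / s) else 0) =
      (((Icc 1 s).filter P).card : ℤ) * ∑ i ∈ range f, e i +
        e f * (((Icc 1 r).filter P).card : ℤ) := by
  have hs : 0 < s := by omega
  induction f with
  | zero =>
    have : ∀ j ∈ Icc 1 (s * 0 + r), (if P j then e ((s * 0 + r - j) / s) else 0) =
        if P j then e 0 else 0 := by
      intro j hj
      rw [Nat.div_eq_of_lt (by omega)]
    rw [sum_congr rfl this, ← sum_filter, sum_const]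
    simp [mul_comm]
  | succ f ih =>
    have h1 : Icc 1 (s * (f + 1) + r) = Icc 1 s ∪ Ioc s (s * (f + 1) + r) := by
      ext j
      simp only [mem_Icc, mem_union, mem_Ioc]
      have : s ≤ s * (f + 1) := Nat.le_mul_of_pos_right s (by omega)
      omega
    have h2 : Disjoint (Icc 1 s) (Ioc s (s * (f + 1) + r)) := by
      rw [disjoint_left]
      intro j hj hj'
      simp only [mem_Icc, mem_Ioc] at hj hj'
      omega
    have h3 : ∑ j ∈ Ioc s (s * (f + 1) + r),
        (if P j then e ((s * (f + 1) + r - j) / s) else 0) =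
        ∑ j ∈ Icc 1 (s * f + r), (if P j then e ((s * f + r - j) / s) else 0) := by
      symm
      apply sum_bij' (fun j _ => j + s) (fun j _ => j - s)
      · intro j hj
        simp only [mem_Icc, mem_Ioc] at hj ⊢
        rw [mul_add]; omega
      · intro j hj
        simp only [mem_Icc, mem_Ioc] at hj ⊢
        rw [mul_add] at hj; omega
      · intro j hj; simp
      · intro j hj
        simp only [mem_Ioc] at hj
        omega
      · intro j hj
        have : s * (f + 1) + r - (j + s) = s * f + r - j := by rw [mul_add]; omega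
        rw [this]
        simp only [hP j]
    have h4 : ∑ j ∈ Icc 1 s, (if P j then e ((s * (f + 1) + r - j) / s) else 0) =
        e (f + 1) * (((Icc 1 r).filter P).card : ℤ) +
          e f * (((Ioc r s).filter P).card : ℤ) := by
      have h5 : Icc 1 s = Icc 1 r ∪ Ioc r s := by
        ext j
        simp only [mem_Icc, mem_union, mem_Ioc]
        omega
      have h6 : Disjoint (Icc 1 r) (Ioc r s) := by
        rw [disjoint_left]
        intro j hj hj'
        simp only [mem_Icc, mem_Ioc] at hj hj'
        omega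
      rw [h5, sum_union h6]
      have h7 : ∀ j ∈ Icc 1 r, (if P j then e ((s * (f + 1) + r - j) / s) else 0) =
          if P j then e (f + 1) else 0 := by
        intro j hj
        simp only [mem_Icc] at hj
        have : s * (f + 1) + r - j = (r - j) + s * (f + 1) := by omega
        rw [this, Nat.add_mul_div_left _ _ hs, Nat.div_eq_of_lt (by omega), zero_add]
      have h8 : ∀ j ∈ Ioc r s, (if P j then e ((s * (f + 1) + r - j) / s) else 0) =
          if P j then e f else 0 := by
        intro j hj
        simp only [mem_Ioc] at hj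
        have : s * (f + 1) + r - j = (s + r - j) + s * f := by rw [mul_add]; omega
        rw [this, Nat.add_mul_div_left _ _ hs, Nat.div_eq_of_lt (by omega), zero_add]
      rw [sum_congr rfl h7, sum_congr rfl h8, ← sum_filter, ← sum_filter, sum_const, sum_const]
      simp [mul_comm]
    have h9 : (((Icc 1 s).filter P).card : ℤ) =
        (((Icc 1 r).filter P).card : ℤ) + (((Ioc r s).filter P).card : ℤ) := by
      have h5 : Icc 1 s = Icc 1 r ∪ Ioc r s := by
        ext j
        simp only [mem_Icc, mem_union, mem_Ioc]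
        omega
      have h6 : Disjoint ((Icc 1 r).filter P) ((Ioc r s).filter P) := by
        rw [disjoint_left]
        intro j hj hj'
        simp only [mem_filter, mem_Icc, mem_Ioc] at hj hj'
        omega
      rw [h5, filter_union, card_union_of_disjoint h6]
      push_cast; ring
    rw [h1, sum_union h2, h3, h4, ih, sum_range_succ, h9]
    ring

theorem total (s u : ℕ) (hs : 0 < s) (hu : u ∣ s) :
    ((Icc 1 s).filter (fun j => s / Nat.gcd s j = u)).card = Nat.totient u := by
  obtain ⟨d, rfl⟩ := hu
  have hd : 0 < d := Nat.pos_of_mul_pos_left hs |> fun h => by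
    rcases Nat.eq_zero_or_pos d with h0 | h0
    · subst h0; simp at hs
    · exact h0
  have hu0 : 0 < u := by
    rcases Nat.eq_zero_or_pos u with h0 | h0
    · subst h0; simp at hs
    · exact h0
  have h1 := Nat.totient_div_of_dvd (n := u * d) (d := d) (Dvd.intro_left u rfl)
  rw [Nat.mul_div_cancel _ hd] at h1
  rw [h1]
  have key : ∀ j, (u * d / Nat.gcd (u * d) j = u ↔ (u * d).gcd j = d) := by
    intro j
    constructor
    · intro h
      have h2 := Nat.mul_div_cancel' (Nat.gcd_dvd_left (u * d) j)
      rw [h, mul_comm] at h2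
      exact Nat.eq_of_mul_eq_mul_left hu0 h2
    · intro h
      rw [h, Nat.mul_div_cancel _ hd]
  apply card_bij (fun j _ => if j = u * d then 0 else j)
  · intro j hj
    simp only [mem_filter, mem_Icc] at hj
    rw [mem_filter, mem_range]
    have h3 := (key j).1 hj.2
    split_ifs with h4
    · subst h4
      refine ⟨hs, ?_⟩
      rw [Nat.gcd_self] at h3
      rw [Nat.gcd_zero_right]; exact h3
    · exact ⟨by omega, h3⟩
  · intro a ha b hb hab
    simp only [mem_filter, mem_Icc] at ha hb
    split_ifs at hab <;> omega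
  · intro j hj
    simp only [mem_filter, mem_range] at hj
    by_cases h0 : j = 0
    · subst h0
      refine ⟨u * d, ?_, by simp⟩
      simp only [mem_filter, mem_Icc]
      refine ⟨by omega, ?_⟩
      rw [key, Nat.gcd_self]
      simpa using hj.2
    · refine ⟨j, ?_, ?_⟩
      · simp only [mem_filter, mem_Icc]
        exact ⟨by omega, (key j).2 hj.2⟩
      · rw [if_neg (by omega)]

theorem blk : G_BLK := by
  intro n k s u hsn hn hus hkn
  have hs : 0 < s := Nat.pos_of_dvd_of_pos hsn hn
  constructor
  · intro hlt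
    have hM : 1 ≤ n / s := Nat.div_pos (Nat.le_of_dvd hn hsn) hs
    have hk : s * (k / s) + k % s = k := Nat.div_add_mod k s
    have h1 := block (ep (n / s)) s (k % s) (Nat.mod_lt _ hs)
      (fun j => s / Nat.gcd s j = u) (by intro j; simp) (k / s)
    rw [hk, total s u hs hus] at h1
    have h2 := ep_sum (n / s) (k / s) hM
    unfold Bs Nu
    rw [h1]
    linear_combination ((Nat.totient u : ℤ)) * h2
  · unfold Bs Nu
    have h1 : ∀ j ∈ Icc 1 k, (if n / Nat.gcd n j = u then ep (n / n) ((k - j) / n) else 0) =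
        if n / Nat.gcd n j = u then 1 else 0 := by
      intro j hj
      rw [Nat.div_eq_of_lt (by omega : k - j < n)]
      simp [ep]
    rw [sum_congr rfl h1, ← sum_filter, sum_const]
    simp

theorem D_eq (p M X : ℕ) (hp : 2 ≤ p) :
    D p M X = ((p : ℤ) - 1) * ∑ i ∈ range (X / p), ep M i +
      ep M (X / p) * ((X % p : ℕ) : ℤ) := by
  have hk : p * (X / p) + X % p = X := Nat.div_add_mod X p
  have hlt : X % p < p := Nat.mod_lt _ (by omega)
  have h1 := block (ep M) p (X % p) hlt (fun i => ¬ p ∣ i) (by intro j; simp) (X / p)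
  rw [hk] at h1
  have h2 : ((Icc 1 p).filter (fun i => ¬ p ∣ i)).card = p - 1 := by
    have : (Icc 1 p).filter (fun i => ¬ p ∣ i) = Icc 1 (p - 1) := by
      ext j
      simp only [mem_filter, mem_Icc]
      constructor
      · rintro ⟨⟨ha, hb⟩, hc⟩
        refine ⟨ha, ?_⟩
        by_contra h
        exact hc (by rw [show j = p by omega])
      · rintro ⟨ha, hb⟩
        exact ⟨⟨ha, by omega⟩, Nat.not_dvd_of_pos_of_lt (by omega) (by omega)⟩
    rw [this]; simp
  have h3 : ((Icc 1 (X % p)).filter (fun i => ¬ p ∣ i)).card = X % p := by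
    rw [filter_true_of_mem]
    · simp
    · intro j hj
      simp only [mem_Icc] at hj
      exact Nat.not_dvd_of_pos_of_lt (by omega) (by omega)
  rw [h2, h3] at h1
  unfold D
  rw [sum_filter, h1]
  push_cast [Nat.cast_sub (by omega : 1 ≤ p)]
  ring

theorem dv : G_DV := by
  intro p M X hp
  constructor
  · intro hM
    have h0 : ((M : ℤ) - 1) * D p M X =
      ep M (X / p) * (((M : ℤ) - 1) * ((X % p : ℕ) : ℤ) - ((p : ℤ) - 1) * ((X / p : ℕ) : ℤ)) := by
      rw [D_eq p M X hp]
      have h2 := ep_sum M (X / p) (by omega)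
      linear_combination ((p : ℤ) - 1) * h2
    refine ⟨h0, ?_⟩
    have hlt : X % p < p := Nat.mod_lt _ (by omega)
    have hep : |ep M (X / p)| = ((M - 1).choose (X / p) : ℤ) := by
      unfold ep
      rw [abs_mul, abs_pow, abs_neg, abs_one, one_pow, one_mul, Nat.abs_cast]
    have h1 : |((M : ℤ) - 1) * D p M X| ≤
        ((M : ℤ) - 1) * (((p : ℤ) - 1) * ((M - 1).choose (X / p) : ℤ)) := by
      rw [h0, abs_mul, hep]
      by_cases hF : X / p ≤ M - 1
      · have h3 : |((M : ℤ) - 1) * ((X % p : ℕ) : ℤ) - ((p : ℤ) - 1) * ((X / p : ℕ) : ℤ)| ≤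
            ((M : ℤ) - 1) * ((p : ℤ) - 1) := by
          have ha : ((X % p : ℕ) : ℤ) ≤ (p : ℤ) - 1 := by omega
          have hb : ((X / p : ℕ) : ℤ) ≤ (M : ℤ) - 1 := by omega
          have hc : (0 : ℤ) ≤ ((X % p : ℕ) : ℤ) := by positivity
          have hd : (0 : ℤ) ≤ ((X / p : ℕ) : ℤ) := by positivity
          have he : (0 : ℤ) ≤ (M : ℤ) - 1 := by omega
          have hf : (0 : ℤ) ≤ (p : ℤ) - 1 := by omega
          rw [abs_le]
          constructor
          · nlinarith [mul_nonneg he hc, mul_le_mul_of_nonneg_left hb hf]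
          · nlinarith [mul_nonneg hf hd, mul_le_mul_of_nonneg_left ha he]
        calc ((M - 1).choose (X / p) : ℤ) * _ ≤
              ((M - 1).choose (X / p) : ℤ) * (((M : ℤ) - 1) * ((p : ℤ) - 1)) :=
              mul_le_mul_of_nonneg_left h3 (by positivity)
          _ = _ := by ring
      · rw [Nat.choose_eq_zero_of_lt (by omega : M - 1 < X / p)]
        simp
    rw [abs_mul, abs_of_pos (by omega : (0 : ℤ) < (M : ℤ) - 1)] at h1
    exact le_of_mul_le_mul_left h1 (by omega)
  · intro hX
    rw [D_eq p 1 X hp, Nat.div_eq_of_lt hX, Nat.mod_eq_of_lt hX]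
    simp [ep]

theorem exh : G_EXH := by
  intro p M k hp hM hk hkM hD
  have h0 := (((dv p M k hp).1 hM).1)
  rw [hD, mul_zero] at h0
  have hlt : k % p < p := Nat.mod_lt _ (by omega)
  have hkk : p * (k / p) + k % p = k := Nat.div_add_mod k p
  have hF : k / p ≤ M - 1 := by
    have : k / p < M := by
      rw [Nat.div_lt_iff_lt_mul (by omega)]
      rw [mul_comm]; omega
    omega
  have hne : ep M (k / p) ≠ 0 := by
    unfold ep
    apply mul_ne_zero
    · exact pow_ne_zero _ (by norm_num)
    · have := Nat.choose_pos hF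
      omega
  have h1 : ((M : ℤ) - 1) * ((k % p : ℕ) : ℤ) = ((p : ℤ) - 1) * ((k / p : ℕ) : ℤ) := by
    rcases mul_eq_zero.1 h0.symm with h | h
    · exact absurd h hne
    · linarith
  obtain ⟨q, rfl⟩ : ∃ q, p = q + 1 := ⟨p - 1, by omega⟩
  obtain ⟨m, rfl⟩ : ∃ m, M = m + 1 := ⟨M - 1, by omega⟩
  have h2 : m * (k % (q + 1)) = q * (k / (q + 1)) := by
    push_cast at h1
    have : ((m * (k % (q + 1)) : ℕ) : ℤ) = ((q * (k / (q + 1)) : ℕ) : ℤ) := by
      push_cast
      linarith
    exact_mod_cast this
  generalize k / (q + 1) = F at *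
  generalize hr : k % (q + 1) = r at *
  refine ⟨r, ?_, ?_, ?_⟩
  · rcases Nat.eq_zero_or_pos r with h | h
    · exfalso
      subst h
      have h3 : q * F = 0 := by rw [← h2]; simp
      rcases Nat.mul_eq_zero.1 h3 with h4 | h4
      · omega
      · subst h4; simp at hkk; omega
    · exact h
  · by_contra h
    have h3 : r = q := by omega
    subst h3
    have h4 : m = F := by
      rw [mul_comm] at h2
      exact Nat.eq_of_mul_eq_mul_left (by omega) h2
    subst h4
    have : (r + 1) * (m + 1) = (r + 1) * m + r + 1 := by ring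
    omega
  · have h5 : (q + 1) * (m + 1) - 1 = (q + 1) * m + q := by
      have : (q + 1) * (m + 1) = (q + 1) * m + q + 1 := by ring
      omega
    rw [h5, ← hkk, Nat.add_sub_cancel]
    calc q * ((q + 1) * F + r) = (q + 1) * (q * F) + q * r := by ring
      _ = (q + 1) * (m * r) + q * r := by rw [h2]
      _ = r * ((q + 1) * m + q) := by ring

end Pool.Agent.Helper8.SD
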