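import Pool.Agent.Helper45.SD.Goals

set_option autoImplicit false

/-!
# Packet JC of MP_9415b6_co
-/

open Finset

namespace Pool.Agent.Helper8.SD

open Pool.Agent.Helper45.SD

theorem Ph_le (n k : ℕ) (hk : k < n) : Ph n k ≤ Nat.totient n := by
  unfold Ph Nat.totient
  apply card_le_card
  intro j hj
  simp only [mem_filter, mem_Icc, mem_range] at hj ⊢
  exact ⟨by omega, hj.2.symm⟩

theorem divisors_split (M : ℕ) (hM : 1 < M) :
    M.divisors = insert 1 (insert M (M.divisors.filter (fun j => 1 < j ∧ j < M))) := by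
  ext j
  simp only [mem_insert, mem_filter, Nat.mem_divisors]
  constructor
  · rintro ⟨h1, h2⟩
    have h3 := Nat.le_of_dvd (by omega) h1
    have h4 : j ≠ 0 := by rintro rfl; simp at h1; omega
    by_cases h5 : j = 1
    · exact Or.inl h5
    · by_cases h6 : j = M
      · exact Or.inr (Or.inl h6)
      · exact Or.inr (Or.inr ⟨⟨h1, h2⟩, by omega, by omega⟩)
  · rintro (h | h | h)
    · subst h; exact ⟨one_dvd _, by omega⟩
    · subst h; exact ⟨dvd_rfl, by omega⟩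
    · exact h.1

theorem jc (hSPL : G_SPL) (hDV : G_DV) (hR1 : G_R1) (hII : G_II) : G_JC := by
  intro p M k g hp hp3 hodd hq hpM hF hk hg hAV
  have hM1 : 1 < M := by nlinarith
  have hM0 : 0 < M := by omega
  have hn0 : 0 < p * M := Nat.mul_pos (by omega) hM0
  have hg0 : 0 < g := Nat.pos_of_dvd_of_pos hg hn0
  have hkn : k < p * M := by omega
  have h1 := hAV p (Dvd.intro M rfl) (by omega)
  rw [hSPL p M k g hp hM0, Nat.totient_prime hp, divisors_split M hM1,
    sum_insert (by simp; omega), sum_insert (by simp)] at h1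
  rw [Nat.div_one, Nat.div_one, mul_one, Nat.div_self hM0] at h1
  have hkM : k / M < p := by
    rw [Nat.div_lt_iff_lt_mul hM0]; exact hkn
  rw [(hDV p 1 (k / M) (by omega)).2 hkM] at h1
  set Φ := Nat.totient (p * M) with hΦ
  set T := M.divisors.filter (fun j => 1 < j ∧ j < M) with hT
  have hΦ0 : 0 < Φ := Nat.totient_pos.2 hn0
  set R := rg g p with hR
  have hRne : R ≠ 0 := (hR1 p g p hp hg0 (by omega) dvd_rfl).2.1
  have hRM := (hR1 p g (p * M) hp hg0 hn0 (Dvd.intro M rfl)).1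
  have hcast : ((p - 1 : ℕ) : ℤ) = (p : ℤ) - 1 := by
    rw [Nat.cast_sub (by omega)]; simp
  rw [hcast] at h1
  have hp1 : (0 : ℤ) < (p : ℤ) - 1 := by omega
  -- bound of the terms
  have hterm : ∀ j ∈ T, ((p : ℤ) - 1) * |rg g (p * j) * D p (M / j) (k / j)| ≤
      |R| * (((p : ℤ) - 1) *
        (((Nat.totient (p * j) * (M / j - 1).choose (k / p / j) : ℕ) : ℤ))) := by
    intro j hj
    simp only [hT, mem_filter, Nat.mem_divisors] at hj
    obtain ⟨⟨hjM, -⟩, hj1, hj2⟩ := hj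
    have hMj : 2 ≤ M / j := by
      obtain ⟨c, rfl⟩ := hjM
      rw [Nat.mul_div_cancel_left _ (by omega)]
      by_contra hc
      have : c = 0 ∨ c = 1 := by omega
      rcases this with h | h <;> subst h <;> simp at hj2
    have ha := (hR1 p g (p * j) hp hg0 (Nat.mul_pos (by omega) (by omega)) (Dvd.intro j rfl)).1
    have hb := ((hDV p (M / j) (k / j) (by omega)).1 hMj).2
    have hc : k / j / p = k / p / j := by
      rw [Nat.div_div_eq_div_mul, Nat.div_div_eq_div_mul, mul_comm]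
    rw [hc] at hb
    rw [abs_mul]
    push_cast
    calc ((p : ℤ) - 1) * (|rg g (p * j)| * |D p (M / j) (k / j)|)
        = (((p : ℤ) - 1) * |rg g (p * j)|) * |D p (M / j) (k / j)| := by ring
      _ ≤ ((Nat.totient (p * j) : ℤ) * |rg g p|) *
          (((p : ℤ) - 1) * ((M / j - 1).choose (k / p / j) : ℤ)) := by
            apply mul_le_mul ha hb (abs_nonneg _)
            positivity
      _ = _ := by rw [← hR]; ring
  -- main estimate
  have hP := Ph_le (p * M) k hkn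
  have hX : |((p : ℤ) - 1) * (Ph (p * M) k : ℤ) - (Φ : ℤ) * ((k / M : ℕ) : ℤ)| ≤
      ((p : ℤ) - 1) * (Φ : ℤ) := by
    have ha : (Ph (p * M) k : ℤ) ≤ (Φ : ℤ) := by exact_mod_cast hP
    have hb : (0 : ℤ) ≤ (Ph (p * M) k : ℤ) := by positivity
    have hc : ((k / M : ℕ) : ℤ) ≤ (p : ℤ) - 1 := by omega
    have hd : (0 : ℤ) ≤ ((k / M : ℕ) : ℤ) := by positivity
    have he : (0 : ℤ) ≤ (Φ : ℤ) := by positivity
    rw [abs_le]
    constructor
    · nlinarith [mul_nonneg hp1.le hb, mul_le_mul_of_nonneg_left hc he]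
    · nlinarith [mul_nonneg he hd, mul_le_mul_of_nonneg_left ha hp1.le]
  have h2 : (Φ : ℤ) * R * D p M k = rg g (p * M) *
      (((p : ℤ) - 1) * (Ph (p * M) k : ℤ) - (Φ : ℤ) * ((k / M : ℕ) : ℤ)) -
      (Φ : ℤ) * ∑ j ∈ T, rg g (p * j) * D p (M / j) (k / j) := by
    linear_combination h1
  have h3 : ((p : ℤ) - 1) * |(Φ : ℤ) * R * D p M k| ≤
      (Φ : ℤ) * |R| * (((p : ℤ) - 1) * (Φ : ℤ)) +
      (Φ : ℤ) * (|R| * (((p : ℤ) - 1) *
        ((∑ j ∈ T, Nat.totient (p * j) * (M / j - 1).choose (k / p / j) : ℕ) : ℤ))) := by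
    rw [h2]
    have h4 : ((p : ℤ) - 1) * |∑ j ∈ T, rg g (p * j) * D p (M / j) (k / j)| ≤
        |R| * (((p : ℤ) - 1) *
        ((∑ j ∈ T, Nat.totient (p * j) * (M / j - 1).choose (k / p / j) : ℕ) : ℤ)) := by
      calc ((p : ℤ) - 1) * |∑ j ∈ T, rg g (p * j) * D p (M / j) (k / j)|
          ≤ ((p : ℤ) - 1) * ∑ j ∈ T, |rg g (p * j) * D p (M / j) (k / j)| :=
            mul_le_mul_of_nonneg_left (abs_sum_le_sum_abs _ _) hp1.le
        _ = ∑ j ∈ T, ((p : ℤ) - 1) * |rg g (p * j) * D p (M / j) (k / j)| := by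
            rw [mul_sum]
        _ ≤ ∑ j ∈ T, |R| * (((p : ℤ) - 1) *
              (((Nat.totient (p * j) * (M / j - 1).choose (k / p / j) : ℕ) : ℤ))) :=
            sum_le_sum hterm
        _ = _ := by rw [← mul_sum, ← mul_sum]; push_cast; rfl
    calc ((p : ℤ) - 1) * |rg g (p * M) *
          (((p : ℤ) - 1) * (Ph (p * M) k : ℤ) - (Φ : ℤ) * ((k / M : ℕ) : ℤ)) -
          (Φ : ℤ) * ∑ j ∈ T, rg g (p * j) * D p (M / j) (k / j)|
        ≤ ((p : ℤ) - 1) * (|rg g (p * M) *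
          (((p : ℤ) - 1) * (Ph (p * M) k : ℤ) - (Φ : ℤ) * ((k / M : ℕ) : ℤ))| +
          |(Φ : ℤ) * ∑ j ∈ T, rg g (p * j) * D p (M / j) (k / j)|) :=
          mul_le_mul_of_nonneg_left (abs_sub _ _) hp1.le
      _ = (((p : ℤ) - 1) * |rg g (p * M)|) *
          |((p : ℤ) - 1) * (Ph (p * M) k : ℤ) - (Φ : ℤ) * ((k / M : ℕ) : ℤ)| +
          (Φ : ℤ) * (((p : ℤ) - 1) * |∑ j ∈ T, rg g (p * j) * D p (M / j) (k / j)|) := by
          rw [abs_mul, abs_mul, Nat.abs_cast]; ring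
      _ ≤ ((Φ : ℤ) * |R|) * (((p : ℤ) - 1) * (Φ : ℤ)) +
          (Φ : ℤ) * (|R| * (((p : ℤ) - 1) *
        ((∑ j ∈ T, Nat.totient (p * j) * (M / j - 1).choose (k / p / j) : ℕ) : ℤ))) := by
          apply add_le_add
          · exact mul_le_mul hRM hX (abs_nonneg _) (by positivity)
          · exact mul_le_mul_of_nonneg_left h4 (by positivity)
      _ = _ := by ring
  have h5 : |D p M k| ≤
      (((∑ j ∈ T, Nat.totient (p * j) * (M / j - 1).choose (k / p / j)) + Φ : ℕ) : ℤ) := by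
    have hpos : (0 : ℤ) < ((p : ℤ) - 1) * ((Φ : ℤ) * |R|) := by
      have : (0 : ℤ) < |R| := abs_pos.2 hRne
      positivity
    apply le_of_mul_le_mul_left _ hpos
    rw [abs_mul, abs_mul, Nat.abs_cast] at h3
    push_cast at h3 ⊢
    linarith
  -- conclusion
  by_contra hD
  have h6 := ((hDV p M k (by omega)).1 (by omega)).1
  have hMpos : (0 : ℤ) < (M : ℤ) - 1 := by omega
  have h7 : ((M - 1).choose (k / p) : ℤ) ≤ ((M : ℤ) - 1) * |D p M k| := by
    have h8 : |((M : ℤ) - 1) * D p M k| = ((M - 1).choose (k / p) : ℤ) *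
        |((M : ℤ) - 1) * ((k % p : ℕ) : ℤ) - ((p : ℤ) - 1) * ((k / p : ℕ) : ℤ)| := by
      rw [h6, abs_mul]
      congr 1
      unfold ep
      rw [abs_mul, abs_pow, abs_neg, abs_one, one_pow, one_mul, Nat.abs_cast]
    rw [abs_mul, abs_of_pos hMpos] at h8
    rw [h8]
    have h9 : 1 ≤ |((M : ℤ) - 1) * ((k % p : ℕ) : ℤ) - ((p : ℤ) - 1) * ((k / p : ℕ) : ℤ)| := by
      apply Int.one_le_abs
      intro h0
      rw [h0, mul_zero] at h6
      rcases mul_eq_zero.1 h6 with h | h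
      · omega
      · exact hD h
    nlinarith [Int.natCast_nonneg ((M - 1).choose (k / p))]
  have hFM : 2 * (k / p) + 1 ≤ M := by
    have h8 : p * (k / p) ≤ k := Nat.mul_div_le k p
    by_contra hc
    have h9 : M ≤ 2 * (k / p) := by omega
    have h10 : p * M ≤ p * (2 * (k / p)) := Nat.mul_le_mul_left p h9
    have h11 : p * (2 * (k / p)) = 2 * (p * (k / p)) := by ring
    omega
  have h8 := hII p M (k / p) hp hp3 hodd hq hpM hF hFM
  rw [← hT, ← hΦ] at h8
  have h9 : ((M : ℤ) - 1) * |D p M k| ≤ ((M : ℤ) - 1) *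
      (((∑ j ∈ T, Nat.totient (p * j) * (M / j - 1).choose (k / p / j)) + Φ : ℕ) : ℤ) :=
    mul_le_mul_of_nonneg_left h5 hMpos.le
  have h10 : ((((M - 1) * ((∑ j ∈ T, Nat.totient (p * j) * (M / j - 1).choose (k / p / j)) + Φ)) : ℕ) : ℤ) <
      (((M - 1).choose (k / p) : ℕ) : ℤ) := by exact_mod_cast h8
  rw [Nat.cast_mul, Nat.cast_sub (by omega : 1 ≤ M), Nat.cast_one] at h10
  linarith

end Pool.Agent.Helper8.SD
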