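import Pool.Agent.Helper16.SD.GoalsX
import Pool.Agent.Helper17.TH.MAIN
import Pool.Agent.Helper31.TH.Wrap
import Pool.Agent.Helper16.TH.INF
import Pool.Agent.Helper94.RP.RAT
import Pool.Agent.Helper40.SD.Z_PC

/-!
# Packet SD-X_LEV (MP_fc6b1e_nt): the polynomials `D` for all the levels
-/

set_option autoImplicit false

namespace Pool.Agent.Helper8.SD.X_LEV

open NumberField Module IsDedekindDomain TensorProduct Polynomial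
open Pool.Agent.Helper51.SigLeo Pool.Agent.Helper51.RP Pool.Agent.Helper51.REC
open Pool.Agent.Helper42.RD (TSet)
open Pool.Agent.Helper38.FD (Chr CutsOut LeopoldtFor)
open Pool.Agent.Helper38.FW (InDec)
open Pool.Agent.Helper38.TH (IsTower Hat)
open Pool.Agent.Helper17.TH (ug exO tm Tw Wsub Acts exists_ring tors_cyc ug_mul ug_fix tow_gen
  tow_one above_comp closed_above)
open Pool.Agent.Helper16.SD

/-- a character which is trivial on `Gal(Ω/F)` has finite order -/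
theorem chi_fin {p : ℕ} [Fact p.Prime] {K : Type} [Field K] [NumberField K]
    (χ : Chr K (AlgebraicClosure K) ℂ_[p]) (F : IntermediateField K (AlgebraicClosure K))
    [NumberField F] [IsGalois K F]
    (h : ∀ g : AlgebraicClosure K ≃ₐ[K] AlgebraicClosure K, (∀ x ∈ F, g x = x) → χ g = 1) :
    ∃ d : ℕ, 0 < d ∧ χ ^ d = 1 := by
  have hfd : FiniteDimensional K F := Module.Finite.of_restrictScalars_finite ℚ K F
  refine ⟨Nat.card (F ≃ₐ[K] F), Nat.card_pos, ?_⟩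
  refine MonoidHom.ext fun g ↦ ?_
  have h1 : (AlgEquiv.restrictNormalHom F (g ^ Nat.card (F ≃ₐ[K] F)) : F ≃ₐ[K] F) = 1 := by
    rw [map_pow]
    exact pow_card_eq_one'
  have h2 : ∀ x ∈ F, (g ^ Nat.card (F ≃ₐ[K] F)) x = x := by
    intro x hx
    have h3 := AlgEquiv.restrictNormal_commutes (g ^ Nat.card (F ≃ₐ[K] F)) F ⟨x, hx⟩
    have h4 : AlgEquiv.restrictNormal (g ^ Nat.card (F ≃ₐ[K] F)) F ⟨x, hx⟩ = ⟨x, hx⟩ :=
      DFunLike.congr_fun h1 (⟨x, hx⟩ : F)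
    rw [h4] at h3
    exact h3.symm
  have h5 := h _ h2
  rw [map_pow] at h5
  rw [MonoidHom.pow_apply, h5]
  rfl

theorem t : S_TEXP → X_INS → X_GT → X_UPW → X_LEV := by
  intro hTE hI hG hU p _ hp K _ _ _ hS ιinf ιp Lg η om u hC χ ν F _ _ B hB S hSB E _ _ g₀ hT
  classical
  obtain ⟨d, hd, hχ⟩ := chi_fin χ F (fun g hg ↦ ((hB.cutF g).1 hg).1)
  obtain ⟨O, _, _, _, _, _, j, hj, hjp, c, hc⟩ := exists_ring χ d hd hχ
  have hν : ∃ g, ν g ≠ 1 := by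
    obtain ⟨g, -, hg⟩ := hB.dec' ιp
    exact ⟨g, hg⟩
  have hcn : ∀ g, j (algebraMap ℤ_[p] O (om g : ℤ_[p]ˣ) * c g⁻¹) = ((ν g : ℂ_[p]ˣ) : ℂ_[p]) := by
    intro g
    have h1 := hB.mul g
    rw [map_mul, hjp, hc, map_inv]
    have h2 : algebraMap ℚ_[p] ℂ_[p] ((om g : ℤ_[p]ˣ) : ℤ_[p]) = zp p (om g : ℤ_[p]ˣ) := rfl
    rw [h2, ← h1, mul_comm, ← mul_assoc, Units.inv_mul, one_mul]
  have hCo : Coef χ ν O j c (fun g ↦ algebraMap ℤ_[p] O (om g : ℤ_[p]ˣ) * c g⁻¹) :=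
    ⟨hj, hjp, hc, hcn⟩
  obtain ⟨gt, C, hgt, htor⟩ := hG p K η om u hC χ ν hB.mul hν O j c _ hCo
  obtain ⟨CG, hCG⟩ := Pool.Agent.Helper31.TH.s_gen p K χ η E g₀ hT
  obtain ⟨b, hb⟩ := hTE p hp K hS Lg η om u hC χ ν F B hB O j c _ hCo E hT.cut
  refine ⟨gt, (b + C) * (p * CG) ^ Fintype.card (Module.Free.ChooseBasisIndex ℤ_[p] O), hgt,
    fun m ↦ ?_⟩
  set ℓs : Set (Additive (𝓞 (E m))ˣ →+ ℂ_[p]) :=
    {ℓ | ∃ τ ∈ (above Bᶜ : Set (E m →+* ℂ_[p])), ℓ = logUnits Lg τ} with hℓs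
  have hH : Acts (p := p) (ug (E m)) χ (η m) gt := by
    refine ⟨ug_mul (E m), fun g hg1 hg2 ↦ ug_fix (E m) g ((hT.cut m g).2 ⟨hg1, hg2⟩), fun g ↦ ?_⟩
    refine tow_gen hT.succ gt g 0 hgt ?_ ?_ m
    · rw [hT.zero]; rfl
    · rw [hT.zero]; rfl
  have hℓ : ∀ ℓ ∈ ℓs, ∀ g, ℓ.comp (ug (E m) g) ∈ ℓs := by
    rintro ℓ ⟨τ, hτ, rfl⟩ g
    exact ⟨_, above_comp (E m) (AlgEquiv.restrictNormalHom (E m) g) hτ, rfl⟩
  have hTw : TwAct (p := p) (ug (E m)) χ (η m) gt ℓs j c u m :=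
    { acts := hH
      stab := hℓ
      inj := hj
      alg := hjp
      hc := hc
      u_one := hC.u_one
      u_eta := fun g h ↦ (hC.cut m g).1 h
      u_gt := hU p hp (u gt) (hC.u_one gt) (fun h2 ↦ hgt ((hC.cut 1 gt).2 h2)) m
      eta_gt := tow_one hT.zero hT.succ m gt }
  have hlin : ∀ v : ℂ_[p] ⊗[ℤ] Additive (𝓞 (E m))ˣ, (∀ ℓ ∈ ℓs, extHom ℓ v = 0) ↔
      ∀ τ ∈ (above Bᶜ : Set (E m →+* ℂ_[p])), extHom (logUnits Lg τ) v = 0 := by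
    intro v
    exact ⟨fun h τ hτ ↦ h _ ⟨τ, hτ, rfl⟩, fun h ℓ ⟨τ, hτ, hℓτ⟩ ↦ by rw [hℓτ]; exact h τ hτ⟩
  have hne : Nonempty (AlgebraicClosure ℚ →+* ℂ_[p]) :=
    Pool.Agent.Helper30.PW.nonempty_hom ℚ ℂ_[p]
  obtain ⟨n, f, hf1, hf2⟩ := Pool.Agent.Helper94.RP.s_rat p ℂ_[p] hne Lg (E m)
    (above Bᶜ) (closed_above (E m) ((Pool.Agent.Helper40.SD.Z_PC.t p K hS).2 Bᶜ))
  obtain ⟨D, hD0, hDr⟩ := hI p (Additive (𝓞 (E m))ˣ)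
    (AlgebraicClosure K ≃ₐ[K] AlgebraicClosure K) (ug (E m)) χ (η m) gt ℓs O j c u m hTw b C CG
    (Module.Free.ChooseBasisIndex ℤ_[p] O) ⟨Module.Free.chooseBasis ℤ_[p] O⟩ (tors_cyc p (E m))
    g₀ hT.g₀χ (hCG m) (htor (E m))
    (fun z hz hz2 ↦ hb m (m + 1) le_rfl z ((hlin _).1 hz) hz2)
    ⟨n, f, fun z hz ↦ hf1 z ((hlin z).1 hz), fun ℓ ⟨τ, hτ, hℓτ⟩ ↦ by
          rw [hℓτ]; exact hf2 τ hτ⟩
  refine ⟨D, hD0, fun θ hθ hnot ↦ ?_⟩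
  rw [Pool.Agent.Helper16.TH.s_inf p K ιinf ιp Lg S (E m) (χ * θ) (fun g hg ↦ by
    have h5 := (hT.cut m g).1 hg
    rw [MonoidHom.mul_apply, h5.1, hθ g h5.2, mul_one])] at hnot
  push Not at hnot
  obtain ⟨v, hv1, hv2, hv0⟩ := hnot
  have hv3 : ∀ τ ∈ (above Bᶜ : Set (E m →+* ℂ_[p])), extHom (logUnits Lg τ) v = 0 :=
    fun τ hτ ↦ hv2 τ (hSB _ hτ)
  refine hDr _ v ⟨(hlin v).2 hv3, fun h hh ↦ ?_⟩ hv0 ?_
  · rw [hv1, MonoidHom.mul_apply, hθ h hh, mul_one]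
  · rw [hv1, MonoidHom.mul_apply, Units.val_mul, ← sub_smul, mul_sub]

end Pool.Agent.Helper8.SD.X_LEV
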